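import Pool.Agent.TH535.SM.C5

set_option autoImplicit false

/-!
# Analytic rigidity of the shifted moments of the Riemann zeta function
-/

namespace Pool.Agent.Results.MP_069854_nt.AnalyticRigidity

open Complex MeasureTheory Set Filter Topology
open Pool.Agent.TH535.SM (Yk zk ze Cor Yk_pos rigid disc disc_ident W_entire)
open Pool.Agent.H667R2.FG (haarU)
open scoped ComplexConjugate Matrix

/-- The normalised shifted moment `Q_k(α,T)` of the problem. -/
noncomputable def Qk (k : ℕ) (α T : ℝ) : ℂ :=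
  (T : ℂ)⁻¹ * ((Real.log T : ℂ) ^ (k ^ 2))⁻¹ *
    ∫ t in (0:ℝ)..T, riemannZeta (1 / 2 + I * α / Real.log T + I * t) ^ k *
      riemannZeta (1 / 2 + I * α / Real.log T - I * t) ^ k

/-- The normalised matrix integral `W_k(α,N)` of the problem: `haarU N` is the Haar probability
measure on the unitary group `U(N)`. -/
noncomputable def Wk (k : ℕ) (α : ℝ) (N : ℕ) : ℂ :=
  ((N : ℂ) ^ (k ^ 2))⁻¹ *
    ∫ U : Matrix.unitaryGroup (Fin N) ℂ,
      Matrix.det (1 - exp (-(I * α / N)) • (U : Matrix (Fin N) (Fin N) ℂ)) ^ k *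
      Matrix.det (1 - exp (-(I * α / N)) • (U : Matrix (Fin N) (Fin N) ℂ)ᴴ) ^ k ∂(haarU N)

/-- The number `d_k(n)` of ordered factorisations of `n` into `k` positive factors. -/
def dk (k n : ℕ) : ℕ := (Nat.finMulAntidiag k n).card

/-- The Euler factor of the arithmetic constant `a_k` at the prime `p`. -/
noncomputable def eulerFactor (k : ℕ) (p : Nat.Primes) : ℝ :=
  (1 - 1 / (p : ℝ)) ^ (k ^ 2) * ∑' m : ℕ, (dk k ((p : ℕ) ^ m) : ℝ) ^ 2 / (p : ℝ) ^ m

/-- The arithmetic constant `a_k`. -/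
noncomputable def ak (k : ℕ) : ℝ := ∏' p : Nat.Primes, eulerFactor k p

/-- Test sets for `k`: sets of real shifts containing `0` and either having an accumulation point
(for example any interval, however short) or containing a progression `0, h, 2h, 3h, …` with
`0 < h < π/k`. -/
def IsTest (k : ℕ) (A : Set ℝ) : Prop :=
  0 ∈ A ∧ ((∃ x : ℝ, AccPt x (𝓟 A)) ∨ ∃ h : ℝ, 0 < h ∧ h < Real.pi / k ∧ ∀ n : ℕ, n * h ∈ A)

lemma integrand_eq (k : ℕ) (a t : ℝ) : riemannZeta (1 / 2 + I * a + I * t) ^ k *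
    riemannZeta (1 / 2 + I * a - I * t) ^ k = zk k (t + a) * conj (zk k (t + -a)) := by
  unfold zk ze
  have e1 : (1 / 2 + I * a + I * t : ℂ) = 1 / 2 + ((t + a : ℝ) : ℂ) * I := by push_cast; ring
  have e2 : (1 / 2 + I * a - I * t : ℂ) = conj (1 / 2 + ((t + -a : ℝ) : ℂ) * I) := by
    rw [map_add, map_mul, conj_I, Complex.conj_ofReal, map_div₀, map_one, map_ofNat]
    push_cast
    ring
  rw [e1, e2, riemannZeta_conj, map_pow]

lemma Qk_eq (k : ℕ) (α T : ℝ) : Qk k α T =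
    (((Yk k T)⁻¹ : ℝ) : ℂ) * Cor (zk k) (α / Real.log T) T := by
  unfold Qk Cor Yk
  have e : ∫ t in (0:ℝ)..T, riemannZeta (1 / 2 + I * α / Real.log T + I * t) ^ k *
      riemannZeta (1 / 2 + I * α / Real.log T - I * t) ^ k =
      ∫ t in (0:ℝ)..T, zk k (t + α / Real.log T) * conj (zk k (t + -(α / Real.log T))) := by
    refine intervalIntegral.integral_congr fun t _ => ?_
    rw [← integrand_eq]
    have : (I * α / Real.log T : ℂ) = I * ((α / Real.log T : ℝ) : ℂ) := by push_cast; ring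
    rw [this]
  rw [e]
  push_cast
  rw [mul_inv]

lemma acc {A : Set ℝ} {x : ℝ} (h : AccPt x (𝓟 A)) (δ : ℝ) (hδ : 0 < δ) :
    ∃ α ∈ A, 0 < |α - x| ∧ |α - x| < δ := by
  rw [accPt_iff_nhds] at h
  obtain ⟨α, ⟨h1, h2⟩, h3⟩ := h (Metric.ball x δ) (Metric.ball_mem_nhds x hδ)
  refine ⟨α, h2, abs_pos.2 (sub_ne_zero.2 h3), ?_⟩
  rwa [Metric.mem_ball, Real.dist_eq] at h1

/-- Let `k ≥ 1` and let `A` be a test set for `k`. (1) If `Q_k(α,T)` converges as `T → ∞` for every
`α ∈ A`, then it converges for every real `α`, and the limit is the restriction to the real line of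
an entire function. (2) If moreover the limit is `a_k 𝒲_k(α)` for `α ∈ A`, then it is
`a_k 𝒲_k(α)` for every real `α`. -/
theorem result (k : ℕ) (hk : 1 ≤ k) (A : Set ℝ) (hA : IsTest k A) :
    ((∀ α ∈ A, ∃ l : ℂ, Tendsto (fun T => Qk k α T) atTop (𝓝 l)) →
      ∃ G : ℂ → ℂ, Differentiable ℂ G ∧ ∀ α : ℝ, Tendsto (fun T => Qk k α T) atTop (𝓝 (G α))) ∧
    ∀ W : ℝ → ℂ, (∀ α, Tendsto (fun N => Wk k α N) atTop (𝓝 (W α))) →
      (∀ α ∈ A, Tendsto (fun T => Qk k α T) atTop (𝓝 (ak k * W α))) →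
      ∀ α : ℝ, Tendsto (fun T => Qk k α T) atTop (𝓝 (ak k * W α)) := by
  have hk0 : (0:ℝ) < k := by exact_mod_cast hk
  obtain ⟨h0, hA'⟩ := hA
  have hrig : ∀ (B : Set ℝ) (x : ℝ), 0 ∈ B → (∀ δ : ℝ, 0 < δ → ∃ α ∈ B, 0 < |α - x| ∧ |α - x| < δ) →
      (∀ α ∈ B, ∃ l : ℂ, Tendsto (fun T => Qk k α T) atTop (𝓝 l)) →
      ∃ G : ℂ → ℂ, Differentiable ℂ G ∧ ∀ α : ℝ, Tendsto (fun T => Qk k α T) atTop (𝓝 (G α)) := by
    intro B x h1 h2 h3
    obtain ⟨G, hG, hG2⟩ := rigid k B h1 x h2 (by simpa only [Qk_eq] using h3)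
    exact ⟨G, hG, by simpa only [Qk_eq] using hG2⟩
  refine ⟨fun hc => ?_, fun W hW hc => ?_⟩
  · rcases hA' with ⟨x, hx⟩ | ⟨h, hh, hh2, hh3⟩
    · exact hrig A x h0 (acc hx) hc
    · have hkh : k * h < Real.pi := by
        rw [lt_div_iff₀ hk0] at hh2
        linarith
      obtain ⟨G, u, C, -, -, -, hG, -⟩ := disc (k := k) hh hkh fun n => by
        obtain ⟨l, hl⟩ := hc _ (hh3 n)
        exact ⟨l, by simpa only [Qk_eq] using hl⟩
      refine hrig univ 0 (mem_univ _) (fun δ hδ => ⟨δ / 2, mem_univ _, ?_, ?_⟩) fun α _ =>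
        ⟨G α, by simpa only [Qk_eq] using hG α⟩
      · rw [sub_zero, abs_of_pos (by positivity)]
        positivity
      · rw [sub_zero, abs_of_pos (by positivity)]
        linarith
  · rcases hA' with ⟨x, hx⟩ | ⟨h, hh, hh2, hh3⟩
    · obtain ⟨G, hG, hG2⟩ := hrig A x h0 (acc hx) fun α hα => ⟨_, hc α hα⟩
      obtain ⟨V, hV, hV2⟩ := W_entire k W hW
      have hGa : AnalyticOnNhd ℂ G univ := hG.differentiableOn.analyticOnNhd isOpen_univ
      have hVa : AnalyticOnNhd ℂ (fun z => (ak k : ℂ) * V z) univ :=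
        (hV.const_mul _).differentiableOn.analyticOnNhd isOpen_univ
      have hfreq : ∃ᶠ z in 𝓝[≠] (x : ℂ), G z = (ak k : ℂ) * V z := by
        rw [Filter.frequently_iff]
        intro U hU
        rw [mem_nhdsWithin] at hU
        obtain ⟨O, hO, hxO, hOU⟩ := hU
        obtain ⟨δ, hδ, hball⟩ := Metric.isOpen_iff.1 hO _ hxO
        obtain ⟨α, hα, h1, h2⟩ := acc hx δ hδ
        refine ⟨(α : ℂ), hOU ⟨hball ?_, ?_⟩, ?_⟩
        · rw [Metric.mem_ball, dist_eq_norm, ← ofReal_sub, Complex.norm_real, Real.norm_eq_abs]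
          exact h2
        · intro h3
          rw [mem_singleton_iff, ofReal_inj] at h3
          rw [h3, sub_self, abs_zero] at h1
          exact lt_irrefl _ h1
        · rw [← hV2 α]
          exact tendsto_nhds_unique (hG2 α) (hc α hα)
      have heq := hGa.eq_of_frequently_eq hVa hfreq
      intro α
      have h4 := congrFun heq (α : ℂ)
      rw [hV2 α, ← h4]
      exact hG2 α
    · have hkh : k * h < Real.pi := by
        rw [lt_div_iff₀ hk0] at hh2
        linarith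
      intro α
      have := disc_ident (k := k) hh hkh (a := ak k) (W := W) hW
        (fun n => by simpa only [Qk_eq] using hc _ (hh3 n)) α
      simpa only [Qk_eq] using this

end Pool.Agent.Results.MP_069854_nt.AnalyticRigidity
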