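import Pool.Agent.TH535.SM.B5

set_option autoImplicit false

/-!
# Lower bounds for shifted moments of the Riemann zeta function
-/

namespace Pool.Agent.Results.MP_069854_nt.ShiftedLowerBounds

open Complex MeasureTheory Set
open Pool.Agent.TH535.SM
open scoped ComplexConjugate

/-- The normalised shifted moment `Q_k(α,T)` of the problem. -/
noncomputable def Qk (k : ℕ) (α T : ℝ) : ℂ :=
  (T : ℂ)⁻¹ * ((Real.log T : ℂ) ^ (k ^ 2))⁻¹ *
    ∫ t in (0:ℝ)..T, riemannZeta (1 / 2 + I * α / Real.log T + I * t) ^ k *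
      riemannZeta (1 / 2 + I * α / Real.log T - I * t) ^ k

/-- The number `d_k(n)` of ordered factorisations of `n` into `k` positive factors. -/
def dk (k n : ℕ) : ℕ := (Nat.finMulAntidiag k n).card

/-- The Euler factor of the arithmetic constant `a_k` at the prime `p`. -/
noncomputable def eulerFactor (k : ℕ) (p : Nat.Primes) : ℝ :=
  (1 - 1 / (p : ℝ)) ^ (k ^ 2) * ∑' m : ℕ, (dk k ((p : ℕ) ^ m) : ℝ) ^ 2 / (p : ℝ) ^ m

/-- The arithmetic constant `a_k`. -/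
noncomputable def ak (k : ℕ) : ℝ := ∏' p : Nat.Primes, eulerFactor k p

lemma eulerFactor_eq (k : ℕ) (p : Nat.Primes) : eulerFactor k p =
    (1 - 1 / (p : ℝ)) ^ ((k : ℝ) ^ 2) * ∑' m : ℕ, H306R2.lc k m ^ 2 * (1 / (p : ℝ)) ^ m := by
  unfold eulerFactor
  have h1 : (1 - 1 / ((p : ℕ) : ℝ)) ^ ((k : ℝ) ^ 2) = (1 - 1 / ((p : ℕ) : ℝ)) ^ (k ^ 2) := by
    rw [← Real.rpow_natCast _ (k ^ 2)]
    push_cast
    rfl
  rw [h1]
  congr 1
  refine tsum_congr fun m => ?_
  have h2 : (dk k ((p : ℕ) ^ m) : ℝ) = H306R2.lc k m := by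
    have h3 := W182.KO.dk_eq k ((p : ℕ) ^ m)
    rw [H306R2.dv_prime_pow _ p.2] at h3
    exact h3
  rw [h2, one_div, inv_pow, div_eq_mul_inv]

lemma ak_eq (k : ℕ) : ak k / (k ^ 2).factorial = Ak k := by
  unfold ak Ak H306R2.aF
  congr 1
  exact tprod_congr fun p => eulerFactor_eq k p

lemma integrand_eq (k : ℕ) (a t : ℝ) : riemannZeta (1 / 2 + I * a + I * t) ^ k *
    riemannZeta (1 / 2 + I * a - I * t) ^ k = zk k (t + a) * conj (zk k (t + -a)) := by
  unfold zk ze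
  have e1 : (1 / 2 + I * a + I * t : ℂ) = 1 / 2 + ((t + a : ℝ) : ℂ) * I := by push_cast; ring
  have e2 : (1 / 2 + I * a - I * t : ℂ) = conj (1 / 2 + ((t + -a : ℝ) : ℂ) * I) := by
    rw [map_add, map_mul, conj_I, Complex.conj_ofReal, map_div₀, map_one, map_ofNat]
    push_cast
    ring
  rw [e1, e2, riemannZeta_conj, map_pow]

lemma Qk_eq (k : ℕ) (α T : ℝ) : Qk k α T =
    (((T * Real.log T ^ (k ^ 2))⁻¹ : ℝ) : ℂ) * Cor (zk k) (α / Real.log T) T := by
  unfold Qk Cor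
  have e : ∫ t in (0:ℝ)..T, riemannZeta (1 / 2 + I * α / Real.log T + I * t) ^ k *
      riemannZeta (1 / 2 + I * α / Real.log T - I * t) ^ k =
      ∫ t in (0:ℝ)..T, zk k (t + α / Real.log T) * conj (zk k (t + -(α / Real.log T))) := by
    refine intervalIntegral.integral_congr fun t _ => ?_
    rw [← integrand_eq]
    have : (I * α / Real.log T : ℂ) = I * ((α / Real.log T : ℝ) : ℂ) := by push_cast; ring
    rw [this]
  rw [e]
  push_cast
  rw [mul_inv]

lemma Qk_zero (k : ℕ) (T : ℝ) : (Qk k 0 T).re = (T * Real.log T ^ (k ^ 2))⁻¹ * M (zk k) T := by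
  rw [Qk_eq, Complex.re_ofReal_mul]
  congr 1
  unfold Cor M
  have e : ∫ t in (0:ℝ)..T, zk k (t + 0 / Real.log T) * conj (zk k (t + -(0 / Real.log T))) =
      ((∫ t in (0:ℝ)..T, ‖zk k t‖ ^ 2 : ℝ) : ℂ) := by
    rw [← intervalIntegral.integral_ofReal]
    refine intervalIntegral.integral_congr fun t _ => ?_
    simp only [zero_div, neg_zero, add_zero]
    rw [Complex.mul_conj, Complex.normSq_eq_norm_sq]
  rw [e, Complex.ofReal_re]

/-- For `k ≥ 2`, `(k-2) |α| < π` and every `ε > 0`: outside a subset of `[X, 2X]` of measure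
`≤ C log² X`, the real part of `e^{ikα} Q_k(α,T)` is at least
`(cos((k-2)α) - ε) Q_k(0,T) - 2 (1 + cos((k-2)α)) a_k / (k²)! - ε`. -/
theorem result (k : ℕ) (hk : 2 ≤ k) (α : ℝ) (hα : (k - 2) * |α| < Real.pi) (ε : ℝ) (hε : 0 < ε) :
    ∃ C X₀ : ℝ, ∀ X : ℝ, X₀ ≤ X → ∃ E : Set ℝ, MeasurableSet E ∧ E ⊆ Icc X (2 * X) ∧
      volume E ≤ ENNReal.ofReal (C * Real.log X ^ 2) ∧
      ∀ T ∈ Icc X (2 * X), T ∉ E →
        (Real.cos ((k - 2) * α) - ε) * (Qk k 0 T).re -
          2 * (1 + Real.cos ((k - 2) * α)) * (ak k / (k ^ 2).factorial) - ε ≤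
          (exp (I * k * α) * Qk k α T).re := by
  obtain ⟨C, X0, hC, hX0, h⟩ := stage2e hk (α := α) (by rw [mul_comm]; exact hα) hε
  refine ⟨C, max X0 2, fun X hX => ?_⟩
  obtain ⟨E, hE1, hE2, hE3, hE4⟩ := h X ((le_max_left _ _).trans hX)
  refine ⟨E, hE1, hE2, ?_, fun T hT hTE => ?_⟩
  · have hfin : volume E ≠ ⊤ :=
      ne_top_of_le_ne_top (by rw [Real.volume_Icc]; exact ENNReal.ofReal_ne_top) (measure_mono hE2)
    rw [← ENNReal.ofReal_toReal hfin]
    exact ENNReal.ofReal_le_ofReal hE3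
  have hT2 : 2 ≤ T := ((le_max_right _ _).trans hX).trans hT.1
  have hL : 0 < Real.log T := Real.log_pos (by linarith)
  have hY : 0 < T * Real.log T ^ (k ^ 2) := by positivity
  have h1 := hE4 T hT hTE
  have e3 : exp (I * k * α) * Qk k α T = (((T * Real.log T ^ (k ^ 2))⁻¹ : ℝ) : ℂ) *
      (exp ((k * α : ℝ) * I) * Cor (zk k) (α / Real.log T) T) := by
    rw [Qk_eq]
    have : (I * k * α : ℂ) = ((k * α : ℝ) : ℂ) * I := by push_cast; ring
    rw [this]
    ring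
  rw [e3, Complex.re_ofReal_mul, Qk_zero, ak_eq]
  have h2 := mul_le_mul_of_nonneg_left h1 (inv_nonneg.2 hY.le)
  refine le_trans (le_of_eq ?_) h2
  set Y := T * Real.log T ^ (k ^ 2) with hYd
  have : Y⁻¹ * Y = 1 := inv_mul_cancel₀ hY.ne'
  linear_combination ((1 + Real.cos ((k - 2) * α)) * (2 * Ak k) + ε) * this

end Pool.Agent.Results.MP_069854_nt.ShiftedLowerBounds
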